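import Pool.Agent.Lib.MP_bf61d2_nt.Zeta.Unfold

set_option autoImplicit false

/-!
The Dedekind zeta function as a finite sum of lattice sums.
-/

namespace Pool.Agent.Lib.MP_bf61d2_nt.Zeta

open NumberField NumberField.mixedEmbedding NumberField.Units NumberField.InfinitePlace
open NumberField.mixedEmbedding.fundamentalCone NumberField.Units.dirichletUnitTheorem
open Module
open scoped Classical nonZeroDivisors

variable {K : Type*} [Field K] [NumberField K]

/-- `n^(-s)`. -/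
noncomputable def en (s : ℂ) (n : ℕ) : ℂ := Complex.exp (-(s * (Real.log n : ℂ)))

/-- Number of principal ideals divisible by `J` of norm `n`. -/
noncomputable def cJ (J : (Ideal (𝓞 K))⁰) (n : ℕ) : ℕ :=
  Nat.card {I : (Ideal (𝓞 K))⁰ // (J : Ideal (𝓞 K)) ∣ I ∧ Submodule.IsPrincipal (I : Ideal (𝓞 K)) ∧
    Ideal.absNorm (I : Ideal (𝓞 K)) = n}

/-- Number of ideals in a class of norm `n`. -/
noncomputable def aC (C : ClassGroup (𝓞 K)) (n : ℕ) : ℕ :=
  Nat.card {I : (Ideal (𝓞 K))⁰ // Ideal.absNorm (I : Ideal (𝓞 K)) = n ∧ ClassGroup.mk0 I = C}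

lemma hasSum_ZJ (J : (Ideal (𝓞 K))⁰) {s : ℂ} (h : Summable (fun β : idealSet K J =>
      Complex.exp (-(s * (Real.log (mixedEmbedding.norm (β : mixedSpace K)) : ℂ))))) :
    HasSum (fun n : ℕ => (torsionOrder K : ℂ) * (cJ J n * en s n)) (ZJ J s) := by
  set nrm : idealSet K J → ℕ := fun β => intNorm (idealSetMap K J β) with hnrm
  have h1 : ∀ β : idealSet K J, (nrm β : ℝ) = mixedEmbedding.norm (β : mixedSpace K) := by
    intro β
    rw [hnrm]
    simp only [intNorm_coe, idealSetMap_apply]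
  have h2 := h.hasSum.tsum_fiberwise nrm
  have h3 : (fun n : ℕ => ∑' β : nrm ⁻¹' {n}, Complex.exp (-(s * (Real.log
      (mixedEmbedding.norm ((β : idealSet K J) : mixedSpace K)) : ℂ)))) =
      fun n : ℕ => (torsionOrder K : ℂ) * (cJ J n * en s n) := by
    funext n
    have h4 : ∀ β : nrm ⁻¹' {n}, Complex.exp (-(s * (Real.log
      (mixedEmbedding.norm ((β : idealSet K J) : mixedSpace K)) : ℂ))) = en s n := by
      intro β
      have : nrm β = n := β.2
      rw [← h1, this, en]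
    rw [tsum_congr h4, tsum_const, nsmul_eq_mul]
    have h5 : Nat.card (nrm ⁻¹' {n}) = cJ J n * torsionOrder K := by
      rw [cJ, torsionOrder, ← Nat.card_prod]
      refine Nat.card_congr (Equiv.trans ?_ (idealSetEquivNorm K J n))
      refine Equiv.subtypeEquivRight fun β => ?_
      rw [← h1]
      simp
    rw [h5]
    push_cast
    ring
  rw [h3] at h2
  exact h2

lemma cJ_mul {J : (Ideal (𝓞 K))⁰} {C : ClassGroup (𝓞 K)} (hJ : ClassGroup.mk0 J = C⁻¹) (n : ℕ) :
    cJ J (Ideal.absNorm (J : Ideal (𝓞 K)) * n) = aC C n := by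
  rw [cJ, aC]
  simp_rw [← nonZeroDivisors_dvd_iff_dvd_coe]
  refine (Nat.card_congr ?_).symm
  refine ((Equiv.dvd J).subtypeEquiv fun I ↦ ?_).trans
    (Equiv.subtypeSubtypeEquivSubtypeInter (fun I : (Ideal (𝓞 K))⁰ ↦ J ∣ I) _)
  have h0 : Ideal.absNorm (J : Ideal (𝓞 K)) ≠ 0 := Ideal.absNorm_ne_zero_of_nonZeroDivisors J
  rw [← ClassGroup.mk0_eq_one_iff (SetLike.coe_mem _)]
  simp_rw [Equiv.dvd_apply, Submonoid.coe_mul, ← Submonoid.mul_def, _root_.map_mul, hJ,
    inv_mul_eq_one]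
  rw [mul_right_inj' h0, and_comm, eq_comm (a := ClassGroup.mk0 I)]

lemma cJ_eq_zero {J : (Ideal (𝓞 K))⁰} {m : ℕ}
    (h : m ∉ Set.range fun n => Ideal.absNorm (J : Ideal (𝓞 K)) * n) : cJ J m = 0 := by
  rw [cJ]
  have : IsEmpty {I : (Ideal (𝓞 K))⁰ // (J : Ideal (𝓞 K)) ∣ I ∧
      Submodule.IsPrincipal (I : Ideal (𝓞 K)) ∧ Ideal.absNorm (I : Ideal (𝓞 K)) = m} := by
    constructor
    rintro ⟨I, h1, -, h2⟩
    obtain ⟨n, hn⟩ := map_dvd Ideal.absNorm h1
    exact h ⟨n, by rw [← h2, hn]⟩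
  exact Nat.card_of_isEmpty

lemma aC_zero (C : ClassGroup (𝓞 K)) : aC C 0 = 0 := by
  rw [aC]
  have : IsEmpty {I : (Ideal (𝓞 K))⁰ //
      Ideal.absNorm (I : Ideal (𝓞 K)) = 0 ∧ ClassGroup.mk0 I = C} := by
    constructor
    rintro ⟨I, h1, -⟩
    exact Ideal.absNorm_ne_zero_of_nonZeroDivisors I h1
  exact Nat.card_of_isEmpty

lemma en_mul (s : ℂ) {m n : ℕ} (hm : m ≠ 0) (hn : n ≠ 0) : en s (m * n) = en s m * en s n := by
  have hm' : (m : ℝ) ≠ 0 := Nat.cast_ne_zero.mpr hm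
  have hn' : (n : ℝ) ≠ 0 := Nat.cast_ne_zero.mpr hn
  rw [en, en, en, ← Complex.exp_add, Nat.cast_mul, Real.log_mul hm' hn']
  congr 1
  push_cast
  ring

lemma en_ne_zero (s : ℂ) (n : ℕ) : en s n ≠ 0 := Complex.exp_ne_zero _

lemma hasSum_aC {J : (Ideal (𝓞 K))⁰} {C : ClassGroup (𝓞 K)} (hJ : ClassGroup.mk0 J = C⁻¹) {s : ℂ}
    (h : Summable (fun β : idealSet K J =>
      Complex.exp (-(s * (Real.log (mixedEmbedding.norm (β : mixedSpace K)) : ℂ))))) :
    HasSum (fun n : ℕ => (aC C n : ℂ) * en s n)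
      ((torsionOrder K * en s (Ideal.absNorm (J : Ideal (𝓞 K))))⁻¹ * ZJ J s) := by
  have h0 : Ideal.absNorm (J : Ideal (𝓞 K)) ≠ 0 := Ideal.absNorm_ne_zero_of_nonZeroDivisors J
  have hw : (torsionOrder K : ℂ) ≠ 0 := Nat.cast_ne_zero.mpr (torsionOrder_ne_zero K)
  have hinj : Function.Injective fun n => Ideal.absNorm (J : Ideal (𝓞 K)) * n :=
    fun a b hab => (mul_right_inj' h0).mp hab
  have h1 := hasSum_ZJ J h
  rw [← hinj.hasSum_iff (fun m hm => by rw [cJ_eq_zero hm]; simp)] at h1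
  have h2 := h1.mul_left (torsionOrder K * en s (Ideal.absNorm (J : Ideal (𝓞 K))))⁻¹
  have e : (fun n : ℕ => (aC C n : ℂ) * en s n) = fun n : ℕ =>
      (torsionOrder K * en s (Ideal.absNorm (J : Ideal (𝓞 K))))⁻¹ *
        ((fun n : ℕ => (torsionOrder K : ℂ) * (cJ J n * en s n)) ∘
          fun n => Ideal.absNorm (J : Ideal (𝓞 K)) * n) n := by
    funext n
    rw [Function.comp_apply, cJ_mul hJ]
    rcases eq_or_ne n 0 with rfl | hn
    · rw [aC_zero]; simp
    · rw [en_mul s h0 hn]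
      have := en_ne_zero s (Ideal.absNorm (J : Ideal (𝓞 K)))
      field_simp
  rw [e]
  exact h2

lemma sum_aC {n : ℕ} (hn : n ≠ 0) :
    ∑ C : ClassGroup (𝓞 K), aC C n = Nat.card {I : Ideal (𝓞 K) // Ideal.absNorm I = n} := by
  have hfin : Finite {I : Ideal (𝓞 K) // Ideal.absNorm I = n} :=
    Set.Finite.to_subtype (Ideal.finite_setOfPred_absNorm_eq n)
  have e : {I : (Ideal (𝓞 K))⁰ // Ideal.absNorm (I : Ideal (𝓞 K)) = n} ≃
      {I : Ideal (𝓞 K) // Ideal.absNorm I = n} :=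
    { toFun := fun I => ⟨I.1.1, I.2⟩
      invFun := fun I => ⟨⟨I.1, mem_nonZeroDivisors_of_ne_zero (by
        intro h
        apply hn
        rw [← I.2, h]
        simp)⟩, I.2⟩
      left_inv := fun I => rfl
      right_inv := fun I => rfl }
  have hfin2 : Finite {I : (Ideal (𝓞 K))⁰ // Ideal.absNorm (I : Ideal (𝓞 K)) = n} :=
    Finite.of_equiv _ e.symm
  have : Fintype {I : (Ideal (𝓞 K))⁰ // Ideal.absNorm (I : Ideal (𝓞 K)) = n} := Fintype.ofFinite _
  rw [← Nat.card_congr e, Nat.card_eq_fintype_card, Fintype.card,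
    Finset.card_eq_sum_card_fiberwise (f := fun I => ClassGroup.mk0 I.1)
      (t := Finset.univ) (fun _ _ ↦ Finset.mem_univ _)]
  refine Finset.sum_congr rfl fun C _ => ?_
  rw [aC, ← Nat.card_congr (Equiv.subtypeSubtypeEquivSubtypeInter
      (fun I : (Ideal (𝓞 K))⁰ ↦ Ideal.absNorm (I : Ideal (𝓞 K)) = n) (fun I ↦ ClassGroup.mk0 I = C)),
    Nat.card_eq_fintype_card, Fintype.subtype_card]

lemma term_eq (f : ℕ → ℂ) (s : ℂ) {n : ℕ} (hn : n ≠ 0) : LSeries.term f s n = f n * en s n := by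
  have hn' : (n : ℂ) ≠ 0 := Nat.cast_ne_zero.mpr hn
  rw [LSeries.term_of_ne_zero hn, Complex.cpow_def_of_ne_zero hn', en, Complex.exp_neg,
    div_eq_mul_inv, ← Complex.natCast_log, mul_comm s]

theorem dedekindZeta_eq {s : ℂ} (J : ClassGroup (𝓞 K) → (Ideal (𝓞 K))⁰)
    (hJ : ∀ C, ClassGroup.mk0 (J C) = C⁻¹)
    (h : ∀ C, Summable (fun β : idealSet K (J C) =>
      Complex.exp (-(s * (Real.log (mixedEmbedding.norm (β : mixedSpace K)) : ℂ))))) :
    dedekindZeta K s = ∑ C, (torsionOrder K * en s (Ideal.absNorm (J C : Ideal (𝓞 K))))⁻¹ *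
      ZJ (J C) s := by
  have h1 := hasSum_sum fun C (_ : C ∈ Finset.univ) => hasSum_aC (hJ C) (h C)
  rw [← h1.tsum_eq, dedekindZeta, LSeries]
  refine tsum_congr fun n => ?_
  rcases eq_or_ne n 0 with rfl | hn
  · simp [aC_zero]
  · rw [term_eq _ _ hn, ← sum_aC hn, ← Finset.sum_mul]
    push_cast
    rfl

lemma exp_mul_fac (K : Type*) [Field K] [NumberField K] {m : ℕ} (hm : m ≠ 0) (u : ℝ) :
    (m : ℂ) ^ finrank ℚ K * fac K m (1 + u * Complex.I) =
      Complex.exp (-(u * (finrank ℚ K * Real.log m) : ℝ) * Complex.I) := by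
  have hm' : (m : ℂ) ≠ 0 := Nat.cast_ne_zero.mpr hm
  have h1 : (m : ℂ) ^ finrank ℚ K = Complex.exp ((finrank ℚ K * Real.log m : ℝ) : ℂ) := by
    push_cast
    rw [Complex.exp_nat_mul, Complex.exp_log hm']
  rw [h1, fac, ← Complex.exp_add]
  congr 1
  push_cast
  ring

lemma exists_m (K : Type*) [Field K] [NumberField K] {u : ℝ} (hu : u ≠ 0) :
    ∃ m : ℕ, m ≠ 0 ∧ (m : ℂ) ^ finrank ℚ K * fac K m (1 + u * Complex.I) ≠ 1 := by
  by_contra hcon
  push Not at hcon
  set n : ℝ := (finrank ℚ K : ℝ) with hn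
  have hn1 : (1 : ℝ) ≤ n := by
    have : 1 ≤ finrank ℚ K := finrank_pos
    rw [hn]
    exact_mod_cast this
  have key : ∀ m : ℕ, m ≠ 0 → ∃ k : ℤ, u * (n * Real.log m) = k * (2 * Real.pi) := by
    intro m hm
    have h1 := hcon m hm
    rw [exp_mul_fac K hm, Complex.exp_eq_one_iff] at h1
    obtain ⟨k, hk⟩ := h1
    refine ⟨-k, ?_⟩
    have h3 : -((u * (finrank ℚ K * Real.log m) : ℝ) : ℂ) = ((k * (2 * Real.pi) : ℝ) : ℂ) := by
      have h4 : -((u * (finrank ℚ K * Real.log m) : ℝ) : ℂ) * Complex.I =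
          ((k * (2 * Real.pi) : ℝ) : ℂ) * Complex.I := by
        rw [hk]
        push_cast
        ring
      exact mul_right_cancel₀ Complex.I_ne_zero h4
    have h2 : -(u * (finrank ℚ K * Real.log m)) = (k * (2 * Real.pi) : ℝ) := by exact_mod_cast h3
    rw [hn]
    push_cast
    linarith
  obtain ⟨m, hm⟩ := exists_nat_gt (|u| * n)
  have hm0 : m ≠ 0 := by
    rintro rfl
    have : 0 ≤ |u| * n := by positivity
    simp at hm
    linarith
  have hmpos : (0 : ℝ) < m := by positivity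
  obtain ⟨k, hk⟩ := key m hm0
  obtain ⟨l, hl⟩ := key (m + 1) (Nat.succ_ne_zero m)
  have h1 : Real.log ((m + 1 : ℕ) : ℝ) - Real.log m = Real.log (1 + 1 / m) := by
    rw [← Real.log_div (by positivity) (by positivity)]
    congr 1
    push_cast
    field_simp
  have h2 : 0 < Real.log (1 + 1 / (m : ℝ)) := Real.log_pos (by
    have : 0 < 1 / (m : ℝ) := by positivity
    linarith)
  have h3 : Real.log (1 + 1 / (m : ℝ)) ≤ 1 / m := by
    have := Real.log_le_sub_one_of_pos (x := 1 + 1 / (m : ℝ)) (by positivity)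
    linarith
  have h4 : u * (n * Real.log (1 + 1 / (m : ℝ))) = (l - k : ℤ) * (2 * Real.pi) := by
    rw [← h1]
    push_cast
    push_cast at hl
    linarith
  have h5 : |((l - k : ℤ) : ℝ)| * (2 * Real.pi) < 1 := by
    have h6 : |((l - k : ℤ) : ℝ)| * (2 * Real.pi) = |u| * (n * Real.log (1 + 1 / (m : ℝ))) := by
      rw [← abs_of_pos (a := 2 * Real.pi) (by positivity), ← abs_mul,
        ← abs_of_pos (a := n * Real.log (1 + 1 / (m : ℝ))) (by positivity), ← abs_mul, h4]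
    rw [h6]
    calc |u| * (n * Real.log (1 + 1 / (m : ℝ))) ≤ |u| * (n * (1 / m)) := by gcongr
      _ = |u| * n / m := by ring
      _ < 1 := by rw [div_lt_one hmpos]; exact hm
  have h7 : (l - k : ℤ) = 0 := by
    by_contra h
    have h8 : (1 : ℝ) ≤ |((l - k : ℤ) : ℝ)| := by exact_mod_cast Int.one_le_abs h
    have := Real.pi_gt_three
    nlinarith
  rw [h7] at h4
  simp only [Int.cast_zero, zero_mul, mul_eq_zero] at h4
  rcases h4 with h | h | h
  · exact hu h
  · linarith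
  · linarith

/-- The continuation. -/
theorem exists_continuation (K : Type*) [Field K] [NumberField K] {u : ℝ} (hu : u ≠ 0) :
    ∃ G : ℂ → ℂ, AnalyticAt ℂ G (1 + u * Complex.I) ∧
      ∀ᶠ s in nhds (1 + u * Complex.I : ℂ), 1 < s.re → G s = dedekindZeta K s := by
  obtain ⟨m, hm0, hm⟩ := exists_m K hu
  have : NeZero m := ⟨hm0⟩
  have hw : (torsionOrder K : ℂ) ≠ 0 := Nat.cast_ne_zero.mpr (torsionOrder_ne_zero K)
  choose J hJ using fun C : ClassGroup (𝓞 K) => ClassGroup.mk0_surjective C⁻¹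
  set den : ℂ → ℂ := fun s => 1 - (m : ℂ) ^ finrank ℚ K * fac K m s with hden
  have hden0 : den (1 + u * Complex.I) ≠ 0 := by
    rw [hden]
    simp only
    rw [sub_ne_zero]
    exact hm.symm
  have hfac : Differentiable ℂ fun s => fac K m s := by
    unfold fac
    fun_prop
  have hden1 : Differentiable ℂ den := by
    rw [hden]
    fun_prop
  have hen : ∀ n : ℕ, Differentiable ℂ fun s => en s n := by
    intro n
    unfold en
    fun_prop
  refine ⟨fun s => ∑ C, (torsionOrder K * en s (Ideal.absNorm (J C : Ideal (𝓞 K))))⁻¹ *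
    (Ds (fractionalIdealLatticeBasis K (FractionalIdeal.mk0 K (J C))) m s / den s), ?_, ?_⟩
  · refine Finset.analyticAt_fun_sum _ fun C _ => ?_
    refine AnalyticAt.mul ?_ ?_
    · refine AnalyticAt.inv ?_ (mul_ne_zero hw (en_ne_zero _ _))
      exact analyticAt_const.mul ((hen _).analyticAt _)
    · refine AnalyticAt.div ?_ (hden1.analyticAt _) hden0
      exact analyticAt_Ds _ (fun a ha =>
        one_le_norm_pt (isBasisOf_fractionalIdealLatticeBasis (J C)) ha) m u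
  · have h1 : ∀ᶠ s in nhds (1 + u * Complex.I : ℂ), den s ≠ 0 :=
      (hden1.continuous.continuousAt).eventually_ne hden0
    filter_upwards [h1] with s hs hre
    have h2 := fun C => unfold (isBasisOf_fractionalIdealLatticeBasis (J C)) hre
    rw [dedekindZeta_eq J hJ fun C => (h2 C).1]
    refine Finset.sum_congr rfl fun C _ => ?_
    congr 1
    rw [← (h2 C).2, div_eq_iff hs, ← dilation _ (fun a ha =>
        one_le_norm_pt (isBasisOf_fractionalIdealLatticeBasis (J C)) ha) m hre]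
    have h3 : Fintype.card (Free.ChooseBasisIndex ℤ
        (FractionalIdeal.mk0 K (J C) : FractionalIdeal (𝓞 K)⁰ K)) = finrank ℚ K := by
      rw [← finrank_eq_card_chooseBasisIndex, fractionalIdeal_rank,
        RingOfIntegers.rank]
    rw [hden]
    simp only
    rw [mul_comm, ← h3]

end Pool.Agent.Lib.MP_bf61d2_nt.Zeta
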