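import Mathlib

set_option autoImplicit false

/-!
A Lipschitz partition of unity for the action of the units on the mixed space.
-/

namespace Pool.Agent.Lib.MP_bf61d2_nt.Zeta

open NumberField NumberField.mixedEmbedding NumberField.Units NumberField.InfinitePlace
open NumberField.mixedEmbedding.fundamentalCone NumberField.Units.dirichletUnitTheorem
open Module
open scoped Classical

/-- The hat function. -/
noncomputable def hat (x : ℝ) : ℝ := max 0 (1 - |x|)

lemma hat_nonneg (x : ℝ) : 0 ≤ hat x := le_max_left _ _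

lemma hat_le_one (x : ℝ) : hat x ≤ 1 := max_le zero_le_one (by linarith [abs_nonneg x])

lemma hat_ne_zero {x : ℝ} (h : hat x ≠ 0) : |x| ≤ 1 := by
  by_contra hcon
  push Not at hcon
  exact h (max_eq_left (by linarith))

lemma hat_sub_le (x y : ℝ) : |hat x - hat y| ≤ |x - y| := by
  have h1 : |max 0 (1 - |x|) - max 0 (1 - |y|)| ≤ |(1 - |x|) - (1 - |y|)| := by
    have := abs_max_sub_max_le_abs (1 - |x|) (1 - |y|) 0
    rwa [max_comm (1 - |x|) 0, max_comm (1 - |y|) 0] at this
  refine h1.trans ?_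
  have h2 : (1 - |x|) - (1 - |y|) = |y| - |x| := by ring
  rw [h2, abs_sub_comm x y]
  exact abs_abs_sub_abs_le_abs_sub y x

lemma prod_sub_le {ι : Type*} (s : Finset ι) (f g : ι → ℝ) (hf0 : ∀ i, 0 ≤ f i)
    (hf : ∀ i, f i ≤ 1) (hg0 : ∀ i, 0 ≤ g i) (hg : ∀ i, g i ≤ 1) :
    |∏ i ∈ s, f i - ∏ i ∈ s, g i| ≤ ∑ i ∈ s, |f i - g i| := by
  induction s using Finset.induction_on with
  | empty => simp
  | insert a s ha ih =>
    rw [Finset.prod_insert ha, Finset.prod_insert ha, Finset.sum_insert ha]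
    have h1 : 0 ≤ ∏ i ∈ s, g i := Finset.prod_nonneg fun i _ => hg0 i
    have h2 : ∏ i ∈ s, g i ≤ 1 := Finset.prod_le_one (fun i _ => hg0 i) fun i _ => hg i
    have e : f a * ∏ i ∈ s, f i - g a * ∏ i ∈ s, g i =
        (f a - g a) * ∏ i ∈ s, g i + f a * (∏ i ∈ s, f i - ∏ i ∈ s, g i) := by ring
    rw [e]
    refine (abs_add_le _ _).trans (add_le_add ?_ ?_)
    · rw [abs_mul, abs_of_nonneg h1]
      exact mul_le_of_le_one_right (abs_nonneg _) h2
    · rw [abs_mul, abs_of_nonneg (hf0 a)]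
      exact (mul_le_of_le_one_left (abs_nonneg _) (hf a)).trans ih

variable {K : Type*} [Field K] [NumberField K]

/-- The real basis of the log space given by the fundamental units. -/
noncomputable def ub (K : Type*) [Field K] [NumberField K] : Basis (Fin (rank K)) ℝ (logSpace K) :=
  (basisUnitLattice K).ofZLatticeBasis ℝ (unitLattice K)

/-- The coordinates. -/
noncomputable def crd (x : mixedSpace K) (i : Fin (rank K)) : ℝ := (ub K).repr (logMap x) i

/-- The partition function. -/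
noncomputable def Phi (x : mixedSpace K) : ℝ := ∏ i, hat (crd x i)

lemma Phi_nonneg (x : mixedSpace K) : 0 ≤ Phi x := Finset.prod_nonneg fun _ _ => hat_nonneg _

lemma Phi_le_one (x : mixedSpace K) : Phi x ≤ 1 :=
  Finset.prod_le_one (fun _ _ => hat_nonneg _) fun _ _ => hat_le_one _

lemma Phi_ne_zero {x : mixedSpace K} (h : Phi x ≠ 0) (i : Fin (rank K)) : |crd x i| ≤ 1 :=
  hat_ne_zero (Finset.prod_ne_zero_iff.mp h i (Finset.mem_univ i))

lemma exists_crd_bound (K : Type*) [Field K] [NumberField K] :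
    ∃ A : ℝ, 0 < A ∧ ∀ (x y : mixedSpace K) (i : Fin (rank K)),
      |crd x i - crd y i| ≤ A * ‖logMap x - logMap y‖ := by
  set A : ℝ := 1 + ∑ i, ‖((ub K).coord i).toContinuousLinearMap‖ with hA
  have hs : 0 ≤ ∑ i, ‖((ub K).coord i).toContinuousLinearMap‖ :=
    Finset.sum_nonneg fun _ _ => norm_nonneg _
  refine ⟨A, by linarith, fun x y i => ?_⟩
  have h1 : crd x i - crd y i = ((ub K).coord i).toContinuousLinearMap (logMap x - logMap y) := by
    rw [map_sub]; rfl
  rw [h1, ← Real.norm_eq_abs]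
  refine (ContinuousLinearMap.le_opNorm _ _).trans ?_
  refine mul_le_mul_of_nonneg_right ?_ (norm_nonneg _)
  have := Finset.single_le_sum (f := fun i => ‖((ub K).coord i).toContinuousLinearMap‖)
    (fun _ _ => norm_nonneg _) (Finset.mem_univ i)
  linarith

lemma exists_logMap_bound (K : Type*) [Field K] [NumberField K] :
    ∃ A : ℝ, 0 < A ∧ ∀ x : mixedSpace K, Phi x ≠ 0 → ‖logMap x‖ ≤ A := by
  refine ⟨1 + ∑ i, ‖ub K i‖, by
    have : 0 ≤ ∑ i, ‖ub K i‖ := Finset.sum_nonneg fun _ _ => norm_nonneg _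
    linarith, fun x hx => ?_⟩
  rw [← (ub K).sum_repr (logMap x)]
  refine (norm_sum_le _ _).trans ?_
  have : ∑ i, ‖((ub K).repr (logMap x)) i • (ub K) i‖ ≤ ∑ i, ‖ub K i‖ := by
    refine Finset.sum_le_sum fun i _ => ?_
    rw [_root_.norm_smul, Real.norm_eq_abs]
    exact mul_le_of_le_one_left (norm_nonneg _) (Phi_ne_zero hx i)
  linarith

/-- The logarithm at a place, relative to the norm. -/
noncomputable def rl (x : mixedSpace K) (w : InfinitePlace K) : ℝ :=
  Real.log (normAtPlace w x) - Real.log (mixedEmbedding.norm x) * (finrank ℚ K : ℝ)⁻¹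

lemma log_norm_eq {x : mixedSpace K} (hx : mixedEmbedding.norm x ≠ 0) :
    Real.log (mixedEmbedding.norm x) = ∑ w : InfinitePlace K, w.mult * Real.log (normAtPlace w x) := by
  rw [mixedEmbedding.norm_apply, Real.log_prod]
  · exact Finset.sum_congr rfl fun w _ => by rw [Real.log_pow]
  · intro w _
    exact pow_ne_zero _ (mixedEmbedding.norm_ne_zero_iff.mp hx w)

lemma sum_rl {x : mixedSpace K} (hx : mixedEmbedding.norm x ≠ 0) :
    ∑ w : InfinitePlace K, (w.mult : ℝ) * rl x w = 0 := by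
  have h1 : (∑ w : InfinitePlace K, (w.mult : ℝ)) = finrank ℚ K := by
    exact_mod_cast sum_mult_eq
  have hn : (finrank ℚ K : ℝ) ≠ 0 := Nat.cast_ne_zero.mpr finrank_pos.ne'
  simp only [rl, mul_sub, Finset.sum_sub_distrib, ← Finset.sum_mul]
  rw [← log_norm_eq hx, h1]
  field_simp
  ring

lemma exists_rl_bound (K : Type*) [Field K] [NumberField K] :
    ∃ A : ℝ, 0 < A ∧ ∀ x : mixedSpace K, Phi x ≠ 0 → mixedEmbedding.norm x ≠ 0 →
      ∀ w, |rl x w| ≤ A := by
  obtain ⟨A, hA0, hA⟩ := exists_logMap_bound K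
  have hmult : ∀ w : InfinitePlace K, (1 : ℝ) ≤ w.mult := fun w => by exact_mod_cast one_le_mult
  refine ⟨A * (1 + Fintype.card (InfinitePlace K)), by positivity, fun x hx hN w => ?_⟩
  have h1 : ∀ w : {w : InfinitePlace K // w ≠ w₀}, |(w.1.mult : ℝ) * rl x w.1| ≤ A := by
    intro w
    have := (norm_le_pi_norm (logMap x) w).trans (hA x hx)
    rwa [Real.norm_eq_abs, logMap_apply] at this
  have h2 : ∀ w : InfinitePlace K, w ≠ w₀ → |(w.mult : ℝ) * rl x w| ≤ A := fun w hw => h1 ⟨w, hw⟩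
  have hcard : (0 : ℝ) ≤ Fintype.card (InfinitePlace K) := Nat.cast_nonneg _
  have h3 : |(w.mult : ℝ) * rl x w| ≤ A * (1 + Fintype.card (InfinitePlace K)) := by
    by_cases hw : w = w₀
    · have h4 := sum_rl hN
      rw [← Finset.add_sum_erase _ _ (Finset.mem_univ w)] at h4
      have h5 : (w.mult : ℝ) * rl x w = -∑ w' ∈ Finset.univ.erase w, (w'.mult : ℝ) * rl x w' := by
        linarith
      rw [h5, abs_neg]
      refine (Finset.abs_sum_le_sum_abs _ _).trans ?_
      calc ∑ w' ∈ Finset.univ.erase w, |(w'.mult : ℝ) * rl x w'| ≤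
          ∑ w' ∈ Finset.univ.erase w, A := Finset.sum_le_sum fun w' hw' => h2 w' (by
            rw [← hw]; exact Finset.ne_of_mem_erase hw')
        _ = (Finset.univ.erase w).card * A := by rw [Finset.sum_const, nsmul_eq_mul]
        _ ≤ Fintype.card (InfinitePlace K) * A := by
            refine mul_le_mul_of_nonneg_right ?_ hA0.le
            exact_mod_cast (Finset.card_le_univ _)
        _ ≤ _ := by nlinarith
    · exact (h2 w hw).trans (by nlinarith)
  rw [abs_mul, abs_of_nonneg (by linarith [hmult w])] at h3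
  have := mul_le_mul_of_nonneg_right (hmult w) (abs_nonneg (rl x w))
  linarith

/-- On the support of `Phi` all the places are comparable. -/
lemma exists_kappa (K : Type*) [Field K] [NumberField K] :
    ∃ κ : ℝ, 0 < κ ∧ κ ≤ 1 ∧ ∀ x : mixedSpace K, Phi x ≠ 0 → mixedEmbedding.norm x ≠ 0 →
      ∀ w, κ * ‖x‖ ≤ normAtPlace w x := by
  obtain ⟨A, hA0, hA⟩ := exists_rl_bound K
  refine ⟨Real.exp (-(2 * A)), Real.exp_pos _, Real.exp_le_one_iff.mpr (by linarith),
    fun x hx hN w => ?_⟩
  have hpos : ∀ w, 0 < normAtPlace w x := fun w =>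
    lt_of_le_of_ne (normAtPlace_nonneg w x) (mixedEmbedding.norm_ne_zero_iff.mp hN w).symm
  have h1 : ∀ w', normAtPlace w' x ≤ Real.exp (2 * A) * normAtPlace w x := by
    intro w'
    have h2 := abs_le.mp (hA x hx hN w)
    have h3 := abs_le.mp (hA x hx hN w')
    rw [← Real.exp_log (hpos w'), ← Real.exp_log (hpos w), ← Real.exp_add]
    apply Real.exp_le_exp.mpr
    simp only [rl] at h2 h3
    linarith [h2.1, h3.2]
  have h4 : ‖x‖ ≤ Real.exp (2 * A) * normAtPlace w x := by
    rw [norm_eq_sup'_normAtPlace]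
    exact Finset.sup'_le _ _ fun w' _ => h1 w'
  calc Real.exp (-(2 * A)) * ‖x‖ ≤ Real.exp (-(2 * A)) * (Real.exp (2 * A) * normAtPlace w x) :=
        mul_le_mul_of_nonneg_left h4 (Real.exp_pos _).le
    _ = normAtPlace w x := by
        rw [← mul_assoc, ← Real.exp_add, neg_add_cancel, Real.exp_zero, one_mul]

end Pool.Agent.Lib.MP_bf61d2_nt.Zeta
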