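import Pool.Agent.Lib.MP_bf61d2_nt.Zeta.Cone

set_option autoImplicit false

/-!
A Lipschitz estimate for the homogeneous function `Phi(x) N(x)^(-s)`.
-/

namespace Pool.Agent.Lib.MP_bf61d2_nt.Zeta

open NumberField NumberField.mixedEmbedding NumberField.Units NumberField.InfinitePlace
open NumberField.mixedEmbedding.fundamentalCone NumberField.Units.dirichletUnitTheorem
open Module
open scoped Classical

variable {K : Type*} [Field K] [NumberField K]

/-- The function `Phi(x) N(x)^(-s)`. -/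
noncomputable def hh (s : ℂ) (x : mixedSpace K) : ℂ :=
  if mixedEmbedding.norm x = 0 then 0 else
    (Phi x : ℂ) * Complex.exp (-(s * (Real.log (mixedEmbedding.norm x) : ℂ)))

lemma abs_log_sub_le {a b m : ℝ} (hm : 0 < m) (ha : m ≤ a) (hb : m ≤ b) :
    |Real.log a - Real.log b| ≤ |a - b| / m := by
  have key : ∀ {a b : ℝ}, m ≤ a → m ≤ b → Real.log a - Real.log b ≤ |a - b| / m := by
    intro a b ha hb
    have ha0 : 0 < a := hm.trans_le ha
    have hb0 : 0 < b := hm.trans_le hb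
    rw [← Real.log_div ha0.ne' hb0.ne']
    have h1 := Real.log_le_sub_one_of_pos (div_pos ha0 hb0)
    have h2 : a / b - 1 = (a - b) / b := by field_simp
    rw [h2] at h1
    refine h1.trans ?_
    calc (a - b) / b ≤ |a - b| / b := div_le_div_of_nonneg_right (le_abs_self _) hb0.le
      _ ≤ |a - b| / m := div_le_div_of_nonneg_left (abs_nonneg _) hm hb
  rw [abs_le]
  constructor
  · have := key hb ha
    rw [abs_sub_comm] at this
    linarith
  · exact key ha hb

lemma normAtPlace_le_norm (w : InfinitePlace K) (x : mixedSpace K) : normAtPlace w x ≤ ‖x‖ := by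
  rw [norm_eq_sup'_normAtPlace]
  exact Finset.le_sup' (fun w => normAtPlace w x) (Finset.mem_univ w)

lemma abs_normAtPlace_sub_le (w : InfinitePlace K) (x y : mixedSpace K) :
    |normAtPlace w x - normAtPlace w y| ≤ ‖x - y‖ := by
  have key : ∀ x y : mixedSpace K, normAtPlace w x - normAtPlace w y ≤ ‖x - y‖ := by
    intro x y
    have h1 := normAtPlace_add_le w y (x - y)
    rw [add_sub_cancel] at h1
    linarith [normAtPlace_le_norm w (x - y)]
  rw [abs_le]
  constructor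
  · have := key y x
    rw [norm_sub_rev] at this
    linarith
  · exact key x y

omit [NumberField K] in
lemma mult_le_two (w : InfinitePlace K) : (w.mult : ℝ) ≤ 2 := by
  unfold InfinitePlace.mult
  split_ifs <;> norm_num

lemma pow_le_norm {x : mixedSpace K} {m : ℝ} (hm : 0 ≤ m) (h : ∀ w, m ≤ normAtPlace w x) :
    m ^ finrank ℚ K ≤ mixedEmbedding.norm x := by
  rw [mixedEmbedding.norm_apply, ← sum_mult_eq (K := K), ← Finset.prod_pow_eq_pow_sum]
  exact Finset.prod_le_prod (fun w _ => pow_nonneg hm _) fun w _ => pow_le_pow_left₀ hm (h w) _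

lemma comparable {κ c X : ℝ} (hκ0 : 0 < κ) (hκ1 : κ ≤ 1)
    (hκ : ∀ x : mixedSpace K, Phi x ≠ 0 → mixedEmbedding.norm x ≠ 0 →
      ∀ w, κ * ‖x‖ ≤ normAtPlace w x) {x y : mixedSpace K} (hX : X = ‖x‖)
    (hx : mixedEmbedding.norm x ≠ 0) (hy : mixedEmbedding.norm y ≠ 0)
    (hxy : ‖x - y‖ ≤ c) (hc : 8 * c ≤ κ * X) (h : Phi x ≠ 0 ∨ Phi y ≠ 0) (w : InfinitePlace K) :
    κ / 4 * X ≤ normAtPlace w x ∧ κ / 4 * X ≤ normAtPlace w y := by
  have hX0 : 0 ≤ X := hX ▸ norm_nonneg _
  have h1 := abs_le.mp ((abs_normAtPlace_sub_le w x y).trans hxy)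
  have hkX : 0 ≤ κ * X := by positivity
  rcases h with h | h
  · have h2 := hκ x h hx w
    rw [← hX] at h2
    constructor <;> linarith [h1.1, h1.2]
  · have h2 := hκ y h hy w
    have h3 : X - c ≤ ‖y‖ := by
      have := norm_sub_norm_le x y
      linarith
    have h4 : κ * (X - c) ≤ normAtPlace w y := (mul_le_mul_of_nonneg_left h3 hκ0.le).trans h2
    have h5 : κ * c ≤ c := by
      have hc0 : 0 ≤ c := (norm_nonneg _).trans hxy
      exact mul_le_of_le_one_left hc0 hκ1
    constructor <;> nlinarith [h1.1, h1.2]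

/-- The Lipschitz estimate. -/
theorem lipschitz (K : Type*) [Field K] [NumberField K] {c R σ₀ : ℝ} (hc : 0 < c) (hR : 0 < R)
    (hσ : 0 < σ₀) : ∃ C R₀ : ℝ, 0 < C ∧ 0 < R₀ ∧ ∀ x y : mixedSpace K,
      mixedEmbedding.norm x ≠ 0 → mixedEmbedding.norm y ≠ 0 → ‖x - y‖ ≤ c → R₀ ≤ ‖x‖ →
      ∀ s : ℂ, σ₀ ≤ s.re → ‖s‖ ≤ R → ‖hh s y - hh s x‖ ≤ C * ‖x‖ ^ (-(finrank ℚ K * σ₀ + 1)) := by
  obtain ⟨κ, hκ0, hκ1, hκ⟩ := exists_kappa K
  obtain ⟨A, hA0, hA⟩ := exists_crd_bound K
  set n : ℝ := (finrank ℚ K : ℝ) with hn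
  have hn0 : 0 < n := by rw [hn]; exact_mod_cast finrank_pos
  set r : ℝ := (rank K : ℝ) with hr
  have hr0 : 0 ≤ r := Nat.cast_nonneg _
  refine ⟨(κ / 4) ^ (-(n * σ₀)) * (4 * r * A + 2 * R * n) * (4 * c / κ),
    max (4 / κ) (max (8 * c / κ) (R * n * (4 * c / κ))), by positivity, by positivity, ?_⟩
  intro x y hx hy hxy hX s hs1 hs2
  have hX1 : 4 / κ ≤ ‖x‖ := (le_max_left _ _).trans hX
  have hX2 : 8 * c / κ ≤ ‖x‖ := ((le_max_left _ _).trans (le_max_right _ _)).trans hX
  have hX3 : R * n * (4 * c / κ) ≤ ‖x‖ := ((le_max_right _ _).trans (le_max_right _ _)).trans hX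
  have hXpos : 0 < ‖x‖ := lt_of_lt_of_le (by positivity) hX1
  by_cases hP : Phi x ≠ 0 ∨ Phi y ≠ 0
  swap
  · push Not at hP
    rw [hh, hh, if_neg hx, if_neg hy, hP.1, hP.2]
    simp only [Complex.ofReal_zero, zero_mul, sub_self, norm_zero]
    positivity
  have hcmp := comparable hκ0 hκ1 hκ (x := x) (y := y) rfl hx hy hxy
    (by rw [div_le_iff₀ hκ0] at hX2; linarith) hP
  set m : ℝ := κ / 4 * ‖x‖ with hm
  have hm0 : 0 < m := by positivity
  have hm1 : 1 ≤ m := by
    rw [hm]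
    rw [div_le_iff₀ hκ0] at hX1
    linarith
  set ε : ℝ := c / m with hε
  have hε0 : 0 < ε := by positivity
  have hεeq : ε = 4 * c / κ * ‖x‖⁻¹ := by
    rw [hε, hm]; field_simp
  -- logarithms at places
  have h1 : ∀ w, |Real.log (normAtPlace w x) - Real.log (normAtPlace w y)| ≤ ε := by
    intro w
    refine (abs_log_sub_le hm0 (hcmp w).1 (hcmp w).2).trans ?_
    exact div_le_div_of_nonneg_right ((abs_normAtPlace_sub_le w x y).trans hxy) hm0.le
  have h2 : |Real.log (mixedEmbedding.norm x) - Real.log (mixedEmbedding.norm y)| ≤ n * ε := by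
    rw [log_norm_eq hx, log_norm_eq hy, ← Finset.sum_sub_distrib]
    refine (Finset.abs_sum_le_sum_abs _ _).trans ?_
    have e : n = ∑ w : InfinitePlace K, (w.mult : ℝ) := by
      rw [hn]; exact_mod_cast (sum_mult_eq (K := K)).symm
    rw [e, Finset.sum_mul]
    refine Finset.sum_le_sum fun w _ => ?_
    rw [← mul_sub, abs_mul, abs_of_nonneg (Nat.cast_nonneg _)]
    exact mul_le_mul_of_nonneg_left (h1 w) (Nat.cast_nonneg _)
  have h3 : ‖logMap x - logMap y‖ ≤ 4 * ε := by
    refine (pi_norm_le_iff_of_nonneg (by positivity)).mpr fun w => ?_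
    rw [Pi.sub_apply, logMap_apply, logMap_apply, ← mul_sub, Real.norm_eq_abs, abs_mul,
      abs_of_nonneg (Nat.cast_nonneg _)]
    have e : Real.log (normAtPlace w.1 x) - Real.log (mixedEmbedding.norm x) * n⁻¹ -
        (Real.log (normAtPlace w.1 y) - Real.log (mixedEmbedding.norm y) * n⁻¹) =
        (Real.log (normAtPlace w.1 x) - Real.log (normAtPlace w.1 y)) -
          (Real.log (mixedEmbedding.norm x) - Real.log (mixedEmbedding.norm y)) * n⁻¹ := by ring
    have h4 : |Real.log (normAtPlace w.1 x) - Real.log (mixedEmbedding.norm x) * n⁻¹ -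
        (Real.log (normAtPlace w.1 y) - Real.log (mixedEmbedding.norm y) * n⁻¹)| ≤ 2 * ε := by
      rw [e]
      refine (abs_sub _ _).trans ?_
      rw [abs_mul, abs_of_pos (inv_pos.mpr hn0)]
      have h5 := mul_le_mul_of_nonneg_right h2 (inv_pos.mpr hn0).le
      have h6 : n * ε * n⁻¹ = ε := by field_simp
      linarith [h1 w.1]
    calc (w.1.mult : ℝ) * _ ≤ 2 * (2 * ε) :=
          mul_le_mul (mult_le_two _) h4 (abs_nonneg _) (by norm_num)
      _ = 4 * ε := by ring
  have h4 : |Phi y - Phi x| ≤ 4 * r * A * ε := by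
    refine (prod_sub_le Finset.univ (fun i => hat (crd y i)) (fun i => hat (crd x i))
      (fun _ => hat_nonneg _) (fun _ => hat_le_one _) (fun _ => hat_nonneg _)
      (fun _ => hat_le_one _)).trans ?_
    calc ∑ i, |hat (crd y i) - hat (crd x i)| ≤ ∑ _i : Fin (rank K), A * (4 * ε) := by
          refine Finset.sum_le_sum fun i _ => (hat_sub_le _ _).trans ?_
          rw [abs_sub_comm]
          exact (hA x y i).trans (mul_le_mul_of_nonneg_left h3 hA0.le)
      _ = 4 * r * A * ε := by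
          rw [Finset.sum_const, nsmul_eq_mul, Finset.card_univ, Fintype.card_fin]; ring
  -- the exponentials
  have hN : ∀ z : mixedSpace K, (∀ w, m ≤ normAtPlace w z) →
      ‖Complex.exp (-(s * (Real.log (mixedEmbedding.norm z) : ℂ)))‖ ≤ m ^ (-(n * σ₀)) := by
    intro z hz
    have h5 := pow_le_norm hm0.le hz
    have h6 : (1 : ℝ) ≤ m ^ finrank ℚ K := one_le_pow₀ hm1
    have h7 : 0 < mixedEmbedding.norm z := by linarith
    have h8 : (-(s * (Real.log (mixedEmbedding.norm z) : ℂ))).re =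
        -(s.re * Real.log (mixedEmbedding.norm z)) := by
      rw [Complex.neg_re, Complex.re_mul_ofReal]
    rw [Complex.norm_exp, h8, Real.rpow_def_of_pos hm0]
    apply Real.exp_le_exp.mpr
    have h9 : n * Real.log m ≤ Real.log (mixedEmbedding.norm z) := by
      have := Real.log_le_log (by positivity) h5
      rwa [Real.log_pow] at this
    have h10 : 0 ≤ Real.log m := Real.log_nonneg hm1
    have h11 : σ₀ * (n * Real.log m) ≤ s.re * Real.log (mixedEmbedding.norm z) :=
      mul_le_mul hs1 h9 (by positivity) (by linarith)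
    linarith
  set ex := Complex.exp (-(s * (Real.log (mixedEmbedding.norm x) : ℂ))) with hex
  set ey := Complex.exp (-(s * (Real.log (mixedEmbedding.norm y) : ℂ))) with hey
  have hNx := hN x fun w => (hcmp w).1
  have hNy := hN y fun w => (hcmp w).2
  rw [← hex] at hNx
  rw [← hey] at hNy
  have hdiff : ‖ey - ex‖ ≤ m ^ (-(n * σ₀)) * (2 * R * n * ε) := by
    have e1 : ey = ex * Complex.exp (-(s * ((Real.log (mixedEmbedding.norm y) -
        Real.log (mixedEmbedding.norm x) : ℝ) : ℂ))) := by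
      rw [hex, hey, ← Complex.exp_add]
      congr 1
      push_cast
      ring
    have e2 : ‖-(s * ((Real.log (mixedEmbedding.norm y) -
        Real.log (mixedEmbedding.norm x) : ℝ) : ℂ))‖ ≤ R * (n * ε) := by
      rw [norm_neg, norm_mul, Complex.norm_real, Real.norm_eq_abs, abs_sub_comm]
      exact mul_le_mul hs2 h2 (abs_nonneg _) hR.le
    have e3 : R * (n * ε) ≤ 1 := by
      rw [hεeq]
      calc R * (n * (4 * c / κ * ‖x‖⁻¹)) = R * n * (4 * c / κ) * ‖x‖⁻¹ := by ring
        _ ≤ ‖x‖ * ‖x‖⁻¹ := mul_le_mul_of_nonneg_right hX3 (inv_nonneg.mpr hXpos.le)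
        _ = 1 := mul_inv_cancel₀ hXpos.ne'
    have e4 := Complex.norm_exp_sub_one_le (e2.trans e3)
    have e5 : ey - ex = ex * (Complex.exp (-(s * ((Real.log (mixedEmbedding.norm y) -
        Real.log (mixedEmbedding.norm x) : ℝ) : ℂ))) - 1) := by rw [mul_sub, ← e1, mul_one]
    rw [e5, norm_mul]
    refine mul_le_mul hNx (e4.trans ?_) (norm_nonneg _) (by positivity)
    calc 2 * _ ≤ 2 * (R * (n * ε)) := mul_le_mul_of_nonneg_left e2 (by norm_num)
      _ = 2 * R * n * ε := by ring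
  have hfin : hh s y - hh s x = ((Phi y - Phi x : ℝ) : ℂ) * ey + (Phi x : ℂ) * (ey - ex) := by
    rw [hh, hh, if_neg hx, if_neg hy, ← hex, ← hey]
    push_cast
    ring
  rw [hfin]
  refine (norm_add_le _ _).trans ?_
  rw [norm_mul, norm_mul, Complex.norm_real, Complex.norm_real, Real.norm_eq_abs, Real.norm_eq_abs,
    abs_of_nonneg (Phi_nonneg x)]
  have hmp : 0 < m ^ (-(n * σ₀)) := Real.rpow_pos_of_pos hm0 _
  have t1 : |Phi y - Phi x| * ‖ey‖ ≤ 4 * r * A * ε * m ^ (-(n * σ₀)) :=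
    mul_le_mul h4 hNy (norm_nonneg _) (by positivity)
  have t2 : Phi x * ‖ey - ex‖ ≤ m ^ (-(n * σ₀)) * (2 * R * n * ε) :=
    (mul_le_of_le_one_left (norm_nonneg _) (Phi_le_one x)).trans hdiff
  have t3 : m ^ (-(n * σ₀)) * ε = (κ / 4) ^ (-(n * σ₀)) * (4 * c / κ) *
      ‖x‖ ^ (-(n * σ₀ + 1)) := by
    rw [hm, Real.mul_rpow (by positivity) hXpos.le, hεeq, neg_add, Real.rpow_add hXpos,
      Real.rpow_neg_one]
    ring
  calc _ ≤ 4 * r * A * ε * m ^ (-(n * σ₀)) + m ^ (-(n * σ₀)) * (2 * R * n * ε) := add_le_add t1 t2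
    _ = (4 * r * A + 2 * R * n) * (m ^ (-(n * σ₀)) * ε) := by ring
    _ = _ := by rw [t3]; ring

end Pool.Agent.Lib.MP_bf61d2_nt.Zeta
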