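import Pool.Agent.Lib.MP_bf61d2_nt.Zeta.UnitSum

set_option autoImplicit false

/-!
The lattice sum is a sum over the fundamental cone.
-/

namespace Pool.Agent.Lib.MP_bf61d2_nt.Zeta

open NumberField NumberField.mixedEmbedding NumberField.Units NumberField.InfinitePlace
open NumberField.mixedEmbedding.fundamentalCone NumberField.Units.dirichletUnitTheorem
open Module
open scoped Classical nonZeroDivisors

variable {K : Type*} [Field K] [NumberField K] {J : (Ideal (𝓞 K))⁰}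
variable {ι : Type*} [Fintype ι] {b : Basis ι ℝ (mixedSpace K)}

/-- The lattice of `b` is the lattice of the ideal `J`. -/
def IsBasisOf (J : (Ideal (𝓞 K))⁰) (b : Basis ι ℝ (mixedSpace K)) : Prop :=
  ∀ x, (∃ a : ι → ℤ, pt b a = x) ↔ ∃ α : 𝓞 K, α ∈ (J : Ideal (𝓞 K)) ∧ mixedEmbedding K α = x

lemma one_le_norm_pt (hb : IsBasisOf J b) {a : ι → ℤ} (ha : a ≠ 0) :
    1 ≤ mixedEmbedding.norm (pt b a) := by
  obtain ⟨α, -, hα⟩ := (hb (pt b a)).mp ⟨a, rfl⟩
  have h0 : α ≠ 0 := by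
    rintro rfl
    apply pt_ne_zero b ha
    rw [← hα]
    simp
  rw [← hα, norm_eq_norm, ← Algebra.coe_norm_int]
  have h1 : Algebra.norm ℤ α ≠ 0 := Algebra.norm_ne_zero_iff.mpr h0
  have h2 : (1 : ℤ) ≤ |Algebra.norm ℤ α| := Int.one_le_abs h1
  exact_mod_cast h2

lemma exists_pt_eq (hb : IsBasisOf J b) (p : idealSet K J × (Fin (rank K) → ℤ)) :
    ∃ a : ι → ℤ, pt b a = fu p.2 • (p.1 : mixedSpace K) := by
  obtain ⟨-, α, hα, h⟩ := mem_idealSet.mp p.1.2
  rw [hb]
  refine ⟨(fu p.2 : 𝓞 K) * α, Ideal.mul_mem_left _ _ hα, ?_⟩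
  rw [← h, unitSMul_smul, ← map_mul]
  simp

lemma exists_mem_idealSet (hb : IsBasisOf J b) {a : ι → ℤ} (ha : a ≠ 0) :
    ∃ k : Fin (rank K) → ℤ, fu k • pt b a ∈ idealSet K J := by
  obtain ⟨k, hk⟩ := exists_fu_smul_mem (x := pt b a) (by linarith [one_le_norm_pt hb ha])
  obtain ⟨α, h1, hα⟩ := (hb (pt b a)).mp ⟨a, rfl⟩
  refine ⟨k, mem_idealSet.mpr ⟨hk, (fu k : 𝓞 K) * α, Ideal.mul_mem_left _ _ h1, ?_⟩⟩
  rw [← hα, unitSMul_smul, ← map_mul]
  simp

/-- The sum over the fundamental cone. -/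
noncomputable def ZJ (J : (Ideal (𝓞 K))⁰) (s : ℂ) : ℂ :=
  ∑' β : idealSet K J, Complex.exp (-(s * (Real.log (mixedEmbedding.norm (β : mixedSpace K)) : ℂ)))

theorem unfold (hb : IsBasisOf J b) {s : ℂ} (hs : 1 < s.re) :
    Summable (fun β : idealSet K J =>
      Complex.exp (-(s * (Real.log (mixedEmbedding.norm (β : mixedSpace K)) : ℂ)))) ∧
    ∑' a : ι → ℤ, hh s (pt b a) = ZJ J s := by
  have hsum := summable_hh b (fun a ha => one_le_norm_pt hb ha) hs
  choose g hg using exists_pt_eq (K := K) hb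
  have hnorm : ∀ β : idealSet K J, mixedEmbedding.norm (β : mixedSpace K) ≠ 0 := fun β =>
    (norm_pos_of_mem (mem_idealSet.mp β.2).1).ne'
  have hinj : Function.Injective g := by
    intro p p' h
    have h1 : fu p.2 • (p.1 : mixedSpace K) = fu p'.2 • (p'.1 : mixedSpace K) := by
      rw [← hg, ← hg, h]
    obtain ⟨h2, h3⟩ := fu_smul_inj (mem_idealSet.mp p.1.2).1 (mem_idealSet.mp p'.1.2).1 h1
    exact Prod.ext (Subtype.ext h3) h2
  have hrange : Function.support (fun a => hh s (pt b a)) ⊆ Set.range g := by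
    intro a ha
    have ha0 : a ≠ 0 := by
      rintro rfl
      apply ha
      simp only
      rw [pt_zero, hh_zero]
    obtain ⟨k, hk⟩ := exists_mem_idealSet hb ha0
    refine ⟨(⟨_, hk⟩, -k), pt_injective b ?_⟩
    rw [hg]
    simp only [fu_neg, inv_smul_smul]
  have hval : ∀ p, hh s (pt b (g p)) = ((∏ i, hat (crd (p.1 : mixedSpace K) i + p.2 i) : ℝ) : ℂ) *
      Complex.exp (-(s * (Real.log (mixedEmbedding.norm (p.1 : mixedSpace K)) : ℂ))) := by
    intro p
    rw [hg, hh_fu_smul s p.2 (hnorm p.1)]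
  have hsum2 : Summable fun p => hh s (pt b (g p)) := hsum.comp_injective hinj
  have h1 : ∑' a : ι → ℤ, hh s (pt b a) = ∑' p, hh s (pt b (g p)) := (hinj.tsum_eq hrange).symm
  have h2 : ∀ β : idealSet K J, ∑' k, hh s (pt b (g (β, k))) =
      Complex.exp (-(s * (Real.log (mixedEmbedding.norm (β : mixedSpace K)) : ℂ))) := by
    intro β
    simp only [hval]
    rw [tsum_mul_right, tsum_prod_hat, one_mul]
  refine ⟨?_, ?_⟩
  · have := hsum2.prod
    exact this.congr fun β => h2 β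
  · rw [h1, hsum2.tsum_prod, ZJ]
    exact tsum_congr h2

lemma isBasisOf_fractionalIdealLatticeBasis (J : (Ideal (𝓞 K))⁰) :
    IsBasisOf J (fractionalIdealLatticeBasis K (FractionalIdeal.mk0 K J)) := by
  intro x
  have h1 : (∃ a, pt (fractionalIdealLatticeBasis K (FractionalIdeal.mk0 K J)) a = x) ↔
      x ∈ Submodule.span ℤ (Set.range (fractionalIdealLatticeBasis K (FractionalIdeal.mk0 K J))) := by
    rw [Submodule.mem_span_range_iff_exists_fun]
    simp only [pt, Int.cast_smul_eq_zsmul]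
  rw [h1, mem_span_fractionalIdealLatticeBasis]
  constructor
  · rintro ⟨y, hy, rfl⟩
    rw [FractionalIdeal.coe_mk0] at hy
    obtain ⟨α, hα, rfl⟩ := (FractionalIdeal.mem_coeIdeal _).mp hy
    exact ⟨α, hα, rfl⟩
  · rintro ⟨α, hα, rfl⟩
    refine ⟨α, ?_, rfl⟩
    rw [FractionalIdeal.coe_mk0]
    exact (FractionalIdeal.mem_coeIdeal _).mpr ⟨α, hα, rfl⟩

end Pool.Agent.Lib.MP_bf61d2_nt.Zeta
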