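import Pool.Agent.Lib.MP_bf61d2_nt.Zeta.Dilation

set_option autoImplicit false

/-!
Unfolding of the lattice sums over the units.
-/

namespace Pool.Agent.Lib.MP_bf61d2_nt.Zeta

open NumberField NumberField.mixedEmbedding NumberField.Units NumberField.InfinitePlace
open NumberField.mixedEmbedding.fundamentalCone NumberField.Units.dirichletUnitTheorem
open Module
open scoped Classical

lemma hat_eq_zero {x : ℝ} (h : 1 ≤ |x|) : hat x = 0 := max_eq_left (by linarith)

lemma sum_hat (x : ℝ) : ∑ k ∈ ({-⌊x⌋, -⌊x⌋ - 1} : Finset ℤ), hat (x + k) = 1 := by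
  have hne : -⌊x⌋ ≠ -⌊x⌋ - 1 := by omega
  rw [Finset.sum_pair hne]
  have h0 := Int.floor_le x
  have h1 := Int.lt_floor_add_one x
  have e1 : hat (x + ((-⌊x⌋ : ℤ) : ℝ)) = 1 - (x - ⌊x⌋) := by
    rw [hat]
    push_cast
    rw [abs_of_nonneg (by linarith), max_eq_right (by linarith)]
    ring
  have e2 : hat (x + ((-⌊x⌋ - 1 : ℤ) : ℝ)) = x - ⌊x⌋ := by
    rw [hat]
    push_cast
    rw [abs_of_nonpos (by linarith), max_eq_right (by linarith)]
    ring
  rw [e1, e2]
  ring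

lemma hat_eq_zero_of_notMem {x : ℝ} {k : ℤ} (h : k ∉ ({-⌊x⌋, -⌊x⌋ - 1} : Finset ℤ)) :
    hat (x + k) = 0 := by
  apply hat_eq_zero
  simp only [Finset.mem_insert, Finset.mem_singleton, not_or] at h
  have h0 := Int.floor_le x
  have h1 := Int.lt_floor_add_one x
  by_cases hk : -⌊x⌋ < k
  · have h2 : ((-⌊x⌋ + 1 : ℤ) : ℝ) ≤ k := by exact_mod_cast hk
    push_cast at h2
    rw [abs_of_nonneg (by linarith)]
    linarith
  · have h3 : k ≤ -⌊x⌋ - 2 := by omega
    have h2 : (k : ℝ) ≤ ((-⌊x⌋ - 2 : ℤ) : ℝ) := by exact_mod_cast h3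
    push_cast at h2
    rw [abs_of_nonpos (by linarith)]
    linarith

lemma tsum_prod_hat {ι : Type*} [Fintype ι] (x : ι → ℝ) :
    ∑' k : ι → ℤ, ((∏ i, hat (x i + k i) : ℝ) : ℂ) = 1 := by
  set t : ι → Finset ℤ := fun i => {-⌊x i⌋, -⌊x i⌋ - 1} with ht
  rw [tsum_eq_sum (s := Fintype.piFinset t)]
  · rw [← Complex.ofReal_sum, ← Finset.prod_univ_sum t fun i k => hat (x i + k)]
    rw [Finset.prod_eq_one fun i _ => sum_hat (x i)]
    simp
  · intro k hk
    rw [Fintype.mem_piFinset] at hk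
    push Not at hk
    obtain ⟨i, hi⟩ := hk
    rw [Finset.prod_eq_zero (Finset.mem_univ i) (hat_eq_zero_of_notMem hi)]
    simp

variable {K : Type*} [Field K] [NumberField K]

/-- The units without torsion part. -/
noncomputable def fu (k : Fin (rank K) → ℤ) : (𝓞 K)ˣ := ∏ i, fundSystem K i ^ k i

lemma logEmbedding_fu (k : Fin (rank K) → ℤ) :
    logEmbedding K (Additive.ofMul (fu k)) = ∑ i, (k i : ℝ) • ub K i := by
  rw [fu, ofMul_prod, map_sum]
  refine Finset.sum_congr rfl fun i _ => ?_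
  rw [ofMul_zpow, map_zsmul, logEmbedding_fundSystem, ub, Basis.ofZLatticeBasis_apply,
    Int.cast_smul_eq_zsmul]

lemma crd_fu_smul (k : Fin (rank K) → ℤ) {x : mixedSpace K} (hx : mixedEmbedding.norm x ≠ 0)
    (i : Fin (rank K)) : crd (fu k • x) i = crd x i + k i := by
  rw [crd, logMap_unit_smul _ hx, logEmbedding_fu, map_add, Finsupp.add_apply, crd, add_comm]
  congr 1
  rw [Basis.repr_sum_self]

lemma hh_fu_smul (s : ℂ) (k : Fin (rank K) → ℤ) {x : mixedSpace K}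
    (hx : mixedEmbedding.norm x ≠ 0) :
    hh s (fu k • x) = ((∏ i, hat (crd x i + k i) : ℝ) : ℂ) *
      Complex.exp (-(s * (Real.log (mixedEmbedding.norm x) : ℂ))) := by
  rw [hh, if_neg (by rwa [norm_unit_smul]), norm_unit_smul, Phi]
  simp only [crd_fu_smul k hx]

lemma fu_zero : fu (0 : Fin (rank K) → ℤ) = 1 := by
  simp [fu]

lemma fu_add (k k' : Fin (rank K) → ℤ) : fu (k + k') = fu k * fu k' := by
  simp [fu, zpow_add, Finset.prod_mul_distrib]

lemma fu_neg (k : Fin (rank K) → ℤ) : fu (-k) = (fu k)⁻¹ := by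
  simp [fu]

lemma fu_torsion {k : Fin (rank K) → ℤ} (h : fu k ∈ torsion K) : k = 0 := by
  rw [← logEmbedding_eq_zero_iff, logEmbedding_fu] at h
  have h1 := (ub K).linearIndependent
  rw [Fintype.linearIndependent_iff] at h1
  funext i
  exact_mod_cast h1 _ h i

lemma exists_fu_smul_mem {x : mixedSpace K} (hx : mixedEmbedding.norm x ≠ 0) :
    ∃ k : Fin (rank K) → ℤ, fu k • x ∈ fundamentalCone K := by
  obtain ⟨u, hu⟩ := exists_unit_smul_mem hx
  obtain ⟨⟨ζ, k⟩, h, -⟩ := exist_unique_eq_mul_prod K u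
  refine ⟨k, ?_⟩
  have h1 : fu k = (ζ : (𝓞 K)ˣ)⁻¹ * u := by
    rw [h, inv_mul_cancel_left]
    rfl
  rw [h1, mul_smul]
  exact torsion_smul_mem_of_mem hu (inv_mem ζ.2)

lemma fu_smul_inj {k k' : Fin (rank K) → ℤ} {x y : mixedSpace K} (hx : x ∈ fundamentalCone K)
    (hy : y ∈ fundamentalCone K) (h : fu k • x = fu k' • y) : k = k' ∧ x = y := by
  have h1 : fu (k - k') • x = y := by
    rw [sub_eq_neg_add, fu_add, mul_smul, h, fu_neg, inv_smul_smul]
  have h2 : fu (k - k') ∈ torsion K := by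
    rw [← unit_smul_mem_iff_mem_torsion hx, h1]
    exact hy
  have h3 := fu_torsion h2
  refine ⟨sub_eq_zero.mp h3, ?_⟩
  rw [h3, fu_zero, one_smul] at h1
  exact h1

end Pool.Agent.Lib.MP_bf61d2_nt.Zeta
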