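import Pool.Agent.Lib.MP_bf61d2_nt.Zeta.Nonvanish
import Pool.Agent.Lib.MP_bf61d2_nt.Zeta.ClassSum
import Pool.Agent.Lib.MP_bf61d2_nt.PrimeSum

set_option autoImplicit false

/-!
The sum of `q_v ^ (-σ) cos (u log q_v)` over the finite places of a number field stays bounded
as `σ → 1+`, for `u ≠ 0`.
-/

namespace Pool.Agent.Lib.MP_bf61d2_nt.Zeta

open Filter Topology NumberField IsDedekindDomain
open Pool.Agent.Lib.MP_bf61d2_nt.Edge

variable {L : Type*} [Field L] [NumberField L]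

lemma re_local (η u : ℝ) (v : HeightOneSpectrum (𝓞 L)) :
    ((nm v : ℂ) ^ (-(1 + η + u * Complex.I : ℂ))).re =
      wp (1 + η) v * Real.cos (u * Real.log (nm v)) := by
  have hvpos : (0 : ℝ) < nm v := nm_pos' v
  have hv0 : ((nm v : ℕ) : ℂ) ≠ 0 := by exact_mod_cast hvpos.ne'
  rw [neg_add, Complex.cpow_add _ _ hv0]
  have e0 : (nm v : ℂ) ^ (-(1 + η : ℂ)) = (wp (1 + η) v : ℝ) := by
    rw [wp, Complex.ofReal_cpow hvpos.le]
    push_cast
    rfl
  have e1 : (nm v : ℂ) ^ (-(u * Complex.I : ℂ)) =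
      Complex.exp ((-(u * Real.log (nm v)) : ℝ) * Complex.I) := by
    rw [Complex.cpow_def_of_ne_zero hv0, ← Complex.ofReal_natCast, ← Complex.ofReal_log hvpos.le]
    congr 1
    push_cast
    ring
  rw [e0, e1, Complex.re_ofReal_mul, Complex.exp_ofReal_mul_I_re, Real.cos_neg]

lemma local_approx {η : ℝ} (hη : 0 < η) (u : ℝ) (v : HeightOneSpectrum (𝓞 L)) :
    |Real.log ‖(1 - (nm v : ℂ) ^ (-(1 + η + u * Complex.I : ℂ)))⁻¹‖ -
      wp (1 + η) v * Real.cos (u * Real.log (nm v))| ≤ wp (1 + η) v ^ 2 := by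
  have hs : 1 < (1 + η + u * Complex.I : ℂ).re := by simpa using hη
  set z : ℂ := (nm v : ℂ) ^ (-(1 + η + u * Complex.I : ℂ)) with hz
  have hn : ‖z‖ = wp (1 + η) v := by
    rw [hz, norm_term hs]
    simp [wp]
  have hn1 : ‖z‖ ≤ 1 / 2 := hn ▸ wp_le_half (by linarith) v
  have hlt : ‖z‖ < 1 := by linarith
  rw [norm_inv_eq hlt, Real.log_exp, ← re_local, ← hz, ← Complex.sub_re]
  refine (Complex.abs_re_le_norm _).trans ?_
  have h1 := Complex.norm_log_one_sub_inv_sub_self_le hlt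
  have h2 : Complex.log (1 - z)⁻¹ = -Complex.log (1 - z) := by
    apply Complex.log_inv
    intro harg
    have h3 : (1 - z).re < 0 := by
      rw [Complex.arg_eq_pi_iff] at harg
      exact harg.1
    have h4 : z.re ≤ ‖z‖ := Complex.re_le_norm z
    rw [Complex.sub_re, Complex.one_re] at h3
    linarith
  rw [h2] at h1
  refine h1.trans ?_
  rw [← hn]
  have h5 : (1 - ‖z‖)⁻¹ ≤ 2 := by
    rw [inv_le_comm₀ (by linarith) (by norm_num)]
    linarith
  nlinarith [sq_nonneg ‖z‖, mul_le_mul_of_nonneg_left h5 (sq_nonneg ‖z‖)]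

lemma tsum_cos_le {η : ℝ} (hη : 0 < η) (u : ℝ) :
    |∑' v : HeightOneSpectrum (𝓞 L), wp (1 + η) v * Real.cos (u * Real.log (nm v))| ≤
      |Real.log ‖dedekindZeta L (1 + η + u * Complex.I)‖| + sqC L := by
  have hs : 1 < (1 + η + u * Complex.I : ℂ).re := by simpa using hη
  have hz := tendsto_euler (K := L) hs
  have hne : dedekindZeta L (1 + η + u * Complex.I) ≠ 0 := ne_zero_of_pos hη u
  have hlog : Tendsto (fun S : Finset (HeightOneSpectrum (𝓞 L)) =>
      ∑ v ∈ S, Real.log ‖(1 - (nm v : ℂ) ^ (-(1 + η + u * Complex.I : ℂ)))⁻¹‖) atTop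
      (𝓝 (Real.log ‖dedekindZeta L (1 + η + u * Complex.I)‖)) := by
    refine (hz.norm.log (norm_ne_zero_iff.mpr hne)).congr fun S => ?_
    rw [norm_prod, Real.log_prod]
    intro v _
    rw [norm_ne_zero_iff]
    apply inv_ne_zero
    intro h
    have h1 : (nm v : ℂ) ^ (-(1 + η + u * Complex.I : ℂ)) = 1 := (sub_eq_zero.mp h).symm
    have h2 := norm_local (K := L) hs v
    rw [h1, norm_one] at h2
    exact lt_irrefl _ h2
  have hsum : Summable fun v : HeightOneSpectrum (𝓞 L) =>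
      wp (1 + η) v * Real.cos (u * Real.log (nm v)) := by
    refine Summable.of_norm_bounded (summable_wp (K := L) (σ := 1 + η) (by linarith)) fun v => ?_
    rw [norm_mul, Real.norm_eq_abs, Real.norm_eq_abs, abs_of_pos (wp_pos _ _)]
    exact mul_le_of_le_one_right (wp_pos _ _).le (Real.abs_cos_le_one _)
  have hlim : Tendsto (fun S : Finset (HeightOneSpectrum (𝓞 L)) =>
      ∑ v ∈ S, wp (1 + η) v * Real.cos (u * Real.log (nm v))) atTop
      (𝓝 (∑' v : HeightOneSpectrum (𝓞 L), wp (1 + η) v * Real.cos (u * Real.log (nm v)))) :=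
    hsum.hasSum
  refine le_of_tendsto_of_tendsto' hlim.abs (hlog.abs.add_const (sqC L)) fun S => ?_
  have h1 : |∑ v ∈ S, (Real.log ‖(1 - (nm v : ℂ) ^ (-(1 + η + u * Complex.I : ℂ)))⁻¹‖ -
      wp (1 + η) v * Real.cos (u * Real.log (nm v)))| ≤ sqC L := by
    refine (Finset.abs_sum_le_sum_abs _ _).trans ?_
    refine (Finset.sum_le_sum fun v _ => local_approx hη u v).trans ?_
    exact sum_wp_sq_le (by linarith) S
  rw [Finset.sum_sub_distrib] at h1
  have h2 := abs_sub_abs_le_abs_sub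
    (∑ v ∈ S, wp (1 + η) v * Real.cos (u * Real.log (nm v)))
    (∑ v ∈ S, Real.log ‖(1 - (nm v : ℂ) ^ (-(1 + η + u * Complex.I : ℂ)))⁻¹‖)
  rw [abs_sub_comm] at h2
  linarith

/-- The sum of `q_v ^ (-σ) cos (u log q_v)` stays bounded as `σ → 1+`. -/
theorem zeta_cos_bound (L : Type*) [Field L] [NumberField L] {u : ℝ} (hu : u ≠ 0) :
    ∃ C : ℝ, 0 ≤ C ∧ ∀ᶠ σ in 𝓝[>] (1 : ℝ),
      |∑' w : HeightOneSpectrum (𝓞 L), wp σ w * Real.cos (u * Real.log (nm w))| ≤ C := by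
  obtain ⟨C, hC⟩ := log_zeta_bounded L (fun u hu => exists_continuation L hu) u hu
  have hsq : 0 ≤ sqC L := tsum_nonneg fun v => by positivity
  refine ⟨|C| + sqC L, by positivity, ?_⟩
  filter_upwards [Ioo_mem_nhdsGT (show (1 : ℝ) < 2 by norm_num)] with σ hσ
  have h1 := tsum_cos_le (L := L) (η := σ - 1) (by linarith [hσ.1]) u
  rw [add_sub_cancel] at h1
  refine h1.trans ?_
  have h2 := hC (σ - 1) ⟨by linarith [hσ.1], by linarith [hσ.2]⟩
  linarith [le_abs_self C]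

end Pool.Agent.Lib.MP_bf61d2_nt.Zeta
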